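import Pool.Agent.N918.DA.Shell
import Pool.Agent.Results.MP_3550b5_nt.SmallRegulators
import Pool.Agent.Results.MP_3550b5_nt.RegulatorsInFamilies

/-!
# Schneider's conjecture in ALL families of elliptic curves with sections, at the best approximation vectors of
# systems of linear forms

A `Family d r` (see `Pool.Agent.Y732.Defs3`) is a Weierstrass equation over `ℤ[t₁, …, t_d]` with `r` sections, all
homogeneous for some weights of the parameters; `F.K` is the height pairing of the sections over the function field.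
`F.Marked v`: the member at `v` is an elliptic curve and the `r` points are in lowest terms and nonsingular modulo all
primes. `F.NonDeg v p`: the `p`-adic regulator of the `r` points does not vanish, and Schneider's conjecture at `p` holds
if the rank is `r`. `Large F p T v`: these regulators have norm greater than `1 / T`.

Let `α` be a real matrix with `d` rows and `m` columns, `β` in `ℝ^m` and `τ > 0`. We consider the integer vectors
`v = (v_1, …, v_d)` with `‖(v α)_j - β_j‖ ≤ c |v| ^ (-τ)` for `j = 1, …, m`, `‖x‖` the distance to the nearest integer and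
`|v|` the maximum norm (`Near`); for `β = 0`, `c = 1` and `τ = d / m` they include all best approximation vectors of the
system of the linear forms `v α`, by the theorem of Minkowski.

**Theorem.** Let `κ ≥ 0` and `0 ≤ ρ ≤ 1`. For all `α` outside ONE set of Hausdorff dimension at most
`(d - 1) m + (m + d + 5 κ - ρ / r) / (1 + τ)`, which is less than `d m` for `τ = d / m` and `5 κ < ρ / r`, and so for almost
all `α`, the following is true for ALL families with `d` parameters and `r` sections for which the height pairing over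
the function field is nondegenerate, and all `c`: for ALL large `v` with `‖(v α)_j - β_j‖ ≤ c |v| ^ (-τ)` at which the
member is marked and for ALL primes `p` with `5 ≤ p ≤ |v| ^ κ` at which it is ordinary, the `p`-adic regulator of the `r`
points and, if the rank is `r`, of the curve does not vanish, and its norm is greater than `1 / ⌊|v| ^ ρ⌋`.

There are about `log X` best approximation vectors up to `X`, and the starting results bound the number of the exceptional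
parameters in boxes only by `X ^ (d - 1 / r)`. In the theorems about random orbits, metric sequences, generalised
polynomials and convergents of normal numbers there are exceptional times of density zero; here there are only finitely
many.

Proof. The starting results count the exceptional vectors with norm in `(X / 2, X]`; the primes `p ≤ X ^ κ` cost
`∑ p ^ 4 ≤ X ^ (5 κ)`. The matrices `α` with `‖(v α)_j - β_j‖ ≤ c |v| ^ (-τ)` form neighbourhoods of parallel affine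
subspaces, covered by cubes of side `|v| ^ (-1 - τ)` (`Pool.Agent.N671.DA`, helper671). There are only countably many
families.
-/

set_option autoImplicit false

namespace Pool.Agent.Results.MP_3550b5_nt.BestApproximations

open Pool.Agent.Y732 Pool.Agent.R89.SR
open Pool.Agent.N671.DA (Near approx_vectors)

/-- The member at `v` is not marked, or for all primes `p` with `5 ≤ p ≤ X` at which it is ordinary: the `p`-adic
regulators of the `r` points and, if the rank is `r`, of the curve do not vanish, and they have norm greater than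
`1 / ⌊T⌋`. -/
def Schneider {d r : ℕ} (F : Family d r) (X T : ℝ) (v : Fin d → ℤ) : Prop :=
  F.Marked v → ∀ (p : ℕ) (_ : Fact p.Prime), 5 ≤ p → (p : ℝ) ≤ X → IsOrdinaryW p (F.curve v) →
    F.NonDeg v p ∧ Large F p ⌊T⌋₊ v

lemma large_mono {d r : ℕ} {F : Family d r} {p : ℕ} [Fact p.Prime] {T T' : ℕ} (hT : T ≤ T') {v : Fin d → ℤ}
    (h : Large F p T v) : Large F p T' v := by
  have hT' : (T : ℝ) ≤ T' := by exact_mod_cast hT
  intro g hg
  obtain ⟨h1, h2⟩ := h g hg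
  refine ⟨h1.trans_le (mul_le_mul_of_nonneg_right hT' (norm_nonneg _)), fun hr s c hc hQ => ?_⟩
  exact (h2 hr s c hc hQ).trans_le (mul_le_mul_of_nonneg_right hT' (norm_nonneg _))

/-- the integers at distance at most `X` from `0` -/
lemma mem_box {X : ℝ} {z : ℤ} (h : |(z : ℝ)| ≤ X) :
    z ∈ Finset.Ico (-(⌊X⌋₊ : ℤ)) (-(⌊X⌋₊ : ℤ) + ((2 * ⌊X⌋₊ + 1 : ℕ) : ℤ)) := by
  have h1 : (z.natAbs : ℝ) ≤ X := by
    rw [Nat.cast_natAbs]
    push_cast
    exact h
  have h2 : z.natAbs ≤ ⌊X⌋₊ := Nat.le_floor h1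
  rw [Finset.mem_Ico]
  push_cast
  omega

/-- the primes cost `X ^ (5 κ)` -/
lemma sum_primes {Y : ℝ} (hY : 0 ≤ Y) :
    (∑ p ∈ (Finset.range (⌊Y⌋₊ + 1)).filter (fun p => p.Prime ∧ 5 ≤ p), (p : ℝ) ^ 4) ≤ Y ^ 5 := by
  obtain ⟨S, hS⟩ : ∃ S, S = (Finset.range (⌊Y⌋₊ + 1)).filter (fun p => p.Prime ∧ 5 ≤ p) := ⟨_, rfl⟩
  rw [← hS]
  have hSc : (S.card : ℝ) ≤ Y := by
    have e1 : S ⊆ Finset.Icc 1 ⌊Y⌋₊ := by
      intro p hp
      rw [hS, Finset.mem_filter, Finset.mem_range] at hp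
      rw [Finset.mem_Icc]
      omega
    have e2 := Finset.card_le_card e1
    rw [Nat.card_Icc, Nat.add_sub_cancel] at e2
    exact le_trans (by exact_mod_cast e2) (Nat.floor_le hY)
  calc ∑ p ∈ S, (p : ℝ) ^ 4 ≤ ∑ _p ∈ S, Y ^ 4 := by
        apply Finset.sum_le_sum
        intro p hp
        rw [hS, Finset.mem_filter, Finset.mem_range] at hp
        have e3 : (p : ℝ) ≤ Y := le_trans (by exact_mod_cast Nat.lt_succ_iff.1 hp.1) (Nat.floor_le hY)
        gcongr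
    _ = S.card * Y ^ 4 := by rw [Finset.sum_const, nsmul_eq_mul]
    _ ≤ Y * Y ^ 4 := by gcongr
    _ = Y ^ 5 := by ring

open scoped Classical in
/-- the count in a shell -/
theorem shell {d r : ℕ} (F : Family d r) (hr : 0 < r) (hK : F.K.det ≠ 0) {κ ρ : ℝ} (hκ : 0 ≤ κ) (hρ : 0 ≤ ρ)
    (hρ1 : ρ ≤ 1) (X : ℝ) (hX : 2 ≤ X) :
    (({v : Fin d → ℤ | v ∈ {v : Fin d → ℤ | ¬ Schneider F (‖v‖ ^ κ) (‖v‖ ^ ρ) v} ∧ X / 2 < ‖v‖ ∧
      ‖v‖ ≤ X}.ncard : ℕ) : ℝ) ≤
      (8 * (2 ^ d * r * |(F.K.det : ℝ)| * 3 ^ d)) * X ^ ((d : ℝ) + 5 * κ - ρ / r) := by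
  have hr0 : (0 : ℝ) < r := by exact_mod_cast hr
  have hr1 : (1 : ℝ) ≤ r := by exact_mod_cast hr
  have hX0 : (0 : ℝ) < X := by linarith
  have hX1 : (1 : ℝ) ≤ X := by linarith
  obtain ⟨S, hS⟩ : ∃ S, S = (Finset.range (⌊X ^ κ⌋₊ + 1)).filter (fun p => p.Prime ∧ 5 ≤ p) := ⟨_, rfl⟩
  have hSp : ∀ p ∈ S, p.Prime ∧ 5 ≤ p := fun p hp => by
    rw [hS] at hp
    exact (Finset.mem_filter.1 hp).2
  obtain ⟨n, hn⟩ : ∃ n : ℕ, n = ⌊X⌋₊ := ⟨_, rfl⟩
  obtain ⟨T, hT⟩ : ∃ T : ℕ, T = ⌊(X / 2) ^ ρ⌋₊ := ⟨_, rfl⟩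
  have hn1 : (n : ℝ) ≤ X := by rw [hn]; exact Nat.floor_le hX0.le
  have hn2 : X < n + 1 := by rw [hn]; exact Nat.lt_floor_add_one X
  have hTle : (T : ℝ) ≤ (X / 2) ^ ρ := by rw [hT]; exact Nat.floor_le (by positivity)
  have hXρ : (X / 2) ^ ρ ≤ X / 2 := by
    calc (X / 2) ^ ρ ≤ (X / 2) ^ (1 : ℝ) := Real.rpow_le_rpow_of_exponent_le (by linarith) hρ1
      _ = X / 2 := Real.rpow_one _
  have hTn : T ≤ 2 * n + 1 := by
    have : (T : ℝ) ≤ 2 * n + 1 := by linarith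
    exact_mod_cast this
  have c1 := RegulatorsInFamilies.result.1 d r F hr hK S hSp (fun _ => -(n : ℤ)) (fun _ => 2 * n + 1)
    (2 * n + 1) (fun _ => le_rfl)
  have c2 := SmallRegulators.result.1 d r F hr hK S hSp (fun _ => -(n : ℤ)) (fun _ => 2 * n + 1)
    T (fun _ => hTn)
  obtain ⟨E₁, hE₁⟩ : ∃ E₁, E₁ = (Fintype.piFinset fun _ : Fin d =>
      Finset.Ico (-(n : ℤ)) (-(n : ℤ) + ((2 * n + 1 : ℕ) : ℤ))).filter fun v => F.Marked v ∧
        ∃ p ∈ S, ∃ _ : Fact p.Prime, IsOrdinaryW p (F.curve v) ∧ ¬ F.NonDeg v p := ⟨_, rfl⟩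
  obtain ⟨E₂, hE₂⟩ : ∃ E₂, E₂ = (Fintype.piFinset fun _ : Fin d =>
      Finset.Ico (-(n : ℤ)) (-(n : ℤ) + ((2 * n + 1 : ℕ) : ℤ))).filter fun v => F.Marked v ∧
        ∃ p ∈ S, ∃ _ : Fact p.Prime, IsOrdinaryW p (F.curve v) ∧ ¬ Large F p T v := ⟨_, rfl⟩
  rw [← hE₁] at c1
  rw [← hE₂] at c2
  have hsub : {v : Fin d → ℤ | v ∈ {v : Fin d → ℤ | ¬ Schneider F (‖v‖ ^ κ) (‖v‖ ^ ρ) v} ∧ X / 2 < ‖v‖ ∧
      ‖v‖ ≤ X} ⊆ ((E₁ ∪ E₂ : Finset (Fin d → ℤ)) : Set (Fin d → ℤ)) := by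
    rintro v ⟨h1, h2, h3⟩
    have h1' : ¬ Schneider F (‖v‖ ^ κ) (‖v‖ ^ ρ) v := h1
    unfold Schneider at h1'
    push Not at h1'
    obtain ⟨hM, p, hp, hp5, hpX, ho, hno⟩ := h1'
    have hbox : v ∈ Fintype.piFinset fun _ : Fin d =>
        Finset.Ico (-(n : ℤ)) (-(n : ℤ) + ((2 * n + 1 : ℕ) : ℤ)) := by
      rw [Fintype.mem_piFinset]
      intro l
      rw [hn]
      exact mem_box ((Pool.Agent.N918.DA.norm_le_iff v hX0.le).1 h3 l)
    have hpS : p ∈ S := by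
      rw [hS, Finset.mem_filter, Finset.mem_range]
      refine ⟨Nat.lt_succ_of_le (Nat.le_floor (hpX.trans ?_)), hp.out, hp5⟩
      exact Real.rpow_le_rpow (norm_nonneg _) h3 hκ
    rw [Finset.mem_coe, Finset.mem_union]
    by_cases hND : F.NonDeg v p
    · right
      rw [hE₂, Finset.mem_filter]
      refine ⟨hbox, hM, p, hpS, hp, ho, fun hL => hno hND (large_mono ?_ hL)⟩
      rw [hT]
      exact Nat.floor_le_floor (Real.rpow_le_rpow (by positivity) h2.le hρ)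
    · left
      rw [hE₁, Finset.mem_filter]
      exact ⟨hbox, hM, p, hpS, hp, ho, hND⟩
  have hle := Set.ncard_le_ncard hsub (Finset.finite_toSet _)
  rw [Set.ncard_coe_finset] at hle
  have hle2 : (({v : Fin d → ℤ | v ∈ {v : Fin d → ℤ | ¬ Schneider F (‖v‖ ^ κ) (‖v‖ ^ ρ) v} ∧ X / 2 < ‖v‖ ∧
      ‖v‖ ≤ X}.ncard : ℕ) : ℝ) ≤ E₁.card + E₂.card := by
    exact_mod_cast hle.trans (Finset.card_union_le _ _)
  -- the right-hand side
  obtain ⟨A, hA⟩ : ∃ A : ℝ, A = 2 ^ d * r * |(F.K.det : ℝ)| * 3 ^ d * X ^ ((d : ℝ) + 5 * κ) := ⟨_, rfl⟩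
  have hA0 : 0 ≤ A := by
    rw [hA]
    positivity
  have hsum : (∑ p ∈ S, (p : ℝ) ^ 4) ≤ X ^ (5 * κ) := by
    rw [hS]
    refine (sum_primes (Real.rpow_nonneg hX0.le κ)).trans (le_of_eq ?_)
    rw [← Real.rpow_natCast, ← Real.rpow_mul hX0.le]
    norm_num [mul_comm]
  have hprod : (∏ _l : Fin d, ((2 * n + 1 : ℕ) : ℝ)) ≤ 3 ^ d * X ^ (d : ℝ) := by
    rw [Finset.prod_const, Finset.card_univ, Fintype.card_fin, Real.rpow_natCast, ← mul_pow]
    apply pow_le_pow_left₀ (by positivity)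
    push_cast
    linarith
  have hRHS : 2 ^ d * r * |(F.K.det : ℝ)| * (∑ p ∈ S, (p : ℝ) ^ 4) * ∏ _l : Fin d, ((2 * n + 1 : ℕ) : ℝ) ≤ A := by
    have h1 : (0 : ℝ) ≤ 2 ^ d * r * |(F.K.det : ℝ)| := by positivity
    have h2 : (0 : ℝ) ≤ ∑ p ∈ S, (p : ℝ) ^ 4 := Finset.sum_nonneg fun p _ => by positivity
    calc 2 ^ d * r * |(F.K.det : ℝ)| * (∑ p ∈ S, (p : ℝ) ^ 4) * ∏ _l : Fin d, ((2 * n + 1 : ℕ) : ℝ)
        ≤ 2 ^ d * r * |(F.K.det : ℝ)| * X ^ (5 * κ) * (3 ^ d * X ^ (d : ℝ)) := by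
          gcongr
      _ = A := by
          rw [hA, Real.rpow_add hX0]
          ring
  -- the two factors on the left-hand side
  have hlow : X ^ (ρ / r) / 4 ≤ (T : ℝ) ^ ((1 : ℝ) / r) := by
    have e0 : (1 : ℝ) ≤ (X / 2) ^ ρ := Real.one_le_rpow (by linarith) hρ
    have e1 : (X / 2) ^ ρ < (T : ℝ) + 1 := by rw [hT]; exact Nat.lt_floor_add_one _
    have e2 : (1 : ℝ) ≤ T := by
      rw [hT]
      exact_mod_cast Nat.le_floor (by exact_mod_cast e0)
    have e3 : (X / 2) ^ ρ / 2 ≤ (T : ℝ) := by linarith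
    have e4 : X ^ ρ / 4 ≤ (X / 2) ^ ρ / 2 := by
      rw [Real.div_rpow hX0.le (by norm_num)]
      have e5 : (2 : ℝ) ^ ρ ≤ 2 := by
        calc (2 : ℝ) ^ ρ ≤ 2 ^ (1 : ℝ) := Real.rpow_le_rpow_of_exponent_le (by norm_num) hρ1
          _ = 2 := Real.rpow_one _
      have e6 : 0 < (2 : ℝ) ^ ρ := by positivity
      have e7 : 0 ≤ X ^ ρ := by positivity
      rw [div_div, div_le_div_iff₀ (by norm_num) (by positivity)]
      nlinarith
    calc X ^ (ρ / r) / 4 = X ^ (ρ / r) * (1 / 4) := by ring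
      _ ≤ X ^ (ρ / r) * (1 / 4) ^ ((1 : ℝ) / r) := by
          apply mul_le_mul_of_nonneg_left _ (by positivity)
          calc (1 / 4 : ℝ) = (1 / 4) ^ (1 : ℝ) := by rw [Real.rpow_one]
            _ ≤ (1 / 4) ^ ((1 : ℝ) / r) := by
                apply Real.rpow_le_rpow_of_exponent_ge (by norm_num) (by norm_num)
                rw [div_le_one hr0]
                exact hr1
      _ = (X ^ ρ / 4) ^ ((1 : ℝ) / r) := by
          rw [div_eq_mul_one_div (X ^ ρ), Real.mul_rpow (by positivity) (by norm_num),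
            ← Real.rpow_mul hX0.le, mul_one_div]
      _ ≤ (T : ℝ) ^ ((1 : ℝ) / r) :=
          Real.rpow_le_rpow (by positivity) (e4.trans e3) (by positivity)
  have hlow1 : X ^ (ρ / r) / 4 ≤ ((2 * n + 1 : ℕ) : ℝ) ^ ((1 : ℝ) / r) := by
    refine hlow.trans (Real.rpow_le_rpow (Nat.cast_nonneg _) (by exact_mod_cast hTn) (by positivity))
  have hXp : 0 < X ^ (ρ / r) := by positivity
  have fin : ∀ (e : ℝ) (L : ℝ), 0 ≤ e → X ^ (ρ / r) / 4 ≤ L → e * L ≤ A → e ≤ 4 * (A / X ^ (ρ / r)) := by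
    intro e L he hL h
    have h1 : e * (X ^ (ρ / r) / 4) ≤ A := (mul_le_mul_of_nonneg_left hL he).trans h
    rw [mul_div_assoc', le_div_iff₀ hXp]
    linarith
  have f1 := fin E₁.card _ (Nat.cast_nonneg _) hlow1 (c1.trans hRHS)
  have f2 := fin E₂.card _ (Nat.cast_nonneg _) hlow (c2.trans hRHS)
  have hfinal : 4 * (A / X ^ (ρ / r)) + 4 * (A / X ^ (ρ / r)) =
      (8 * (2 ^ d * r * |(F.K.det : ℝ)| * 3 ^ d)) * X ^ ((d : ℝ) + 5 * κ - ρ / r) := by
    rw [Real.rpow_sub hX0, hA]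
    ring
  linarith

/-- there are only countably many families -/
instance countable_family (d r : ℕ) : Countable (Family d r) := by
  have hc : Countable (MvPolynomial (Fin d) ℤ) := by
    rw [← Cardinal.mk_le_aleph0_iff]
    refine le_trans MvPolynomial.cardinalMk_le_max_lift ?_
    simp
  let g : Family d r → (Fin d → ℕ) × ℕ × (Fin (r + 1) → Fin (r + 1) → ℕ) ×
      (MvPolynomial (Fin d) ℤ × MvPolynomial (Fin d) ℤ × MvPolynomial (Fin d) ℤ × MvPolynomial (Fin d) ℤ ×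
        MvPolynomial (Fin d) ℤ) × (Fin (r + 1) → Fin (r + 1) → MvPolynomial (Fin d) ℤ) ×
      (Fin (r + 1) → Fin (r + 1) → MvPolynomial (Fin d) ℤ) ×
      (Fin (r + 1) → Fin (r + 1) → MvPolynomial (Fin d) ℤ) :=
    fun F => (F.w, F.χ, F.n, (F.W.a₁, F.W.a₂, F.W.a₃, F.W.a₄, F.W.a₆), F.x, F.y, F.e)
  refine Function.Injective.countable (f := g) ?_
  rintro ⟨w, χ, n, ⟨a₁, a₂, a₃, a₄, a₆⟩, x, y, e, _, _, _, _, _, _, _, _⟩
    ⟨w', χ', n', ⟨a₁', a₂', a₃', a₄', a₆'⟩, x', y', e', _, _, _, _, _, _, _, _⟩ h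
  simp only [g, Prod.mk.injEq] at h
  obtain ⟨h1, h2, h3, ⟨h4, h5, h6, h7, h8⟩, h9, h10, h11⟩ := h
  subst h1 h2 h3 h4 h5 h6 h7 h8 h9 h10 h11
  rfl

/-- **Theorem.** Let `d, r ≥ 1`, `κ ≥ 0`, `0 ≤ ρ ≤ 1`, `τ > 0` and `β ∈ ℝ^m`. For all real matrices `α` with `d` rows and
`m` columns outside a set of Hausdorff dimension at most `(d - 1) m + (m + d + 5 κ - ρ / r) / (1 + τ)`, for ALL families
with `d` parameters and `r` sections with nondegenerate height pairing over the function field and all `c`, for all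
large integer vectors `v` with `‖(v α)_j - β_j‖ ≤ c |v| ^ (-τ)` for all `j`: the member at `v` is not marked, or for ALL
primes `p` with `5 ≤ p ≤ |v| ^ κ` at which it is ordinary the `p`-adic regulators of the `r` points and, if the rank is
`r`, of the curve do not vanish and have norm greater than `1 / ⌊|v| ^ ρ⌋`. -/
theorem result (d r : ℕ) (hd : 1 ≤ d) (hr : 0 < r) (κ ρ : ℝ) (hκ : 0 ≤ κ) (hρ : 0 ≤ ρ) (hρ1 : ρ ≤ 1)
    (m : ℕ) (β : Fin m → ℝ) (τ : ℝ) (hτ : 0 < τ) :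
    ∃ E : Set (Fin d × Fin m → ℝ),
      dimH E ≤ ENNReal.ofReal (((d : ℝ) - 1) * m + (m + ((d : ℝ) + 5 * κ - ρ / r)) / (1 + τ)) ∧
      ∀ α, α ∉ E → ∀ F : Family d r, F.K.det ≠ 0 → ∀ c : ℝ, ∃ Q : ℝ, ∀ v : Fin d → ℤ, Q ≤ ‖v‖ →
        Near α β v (c * ‖v‖ ^ (-τ)) → Schneider F (‖v‖ ^ κ) (‖v‖ ^ ρ) v := by
  have hr0 : (0 : ℝ) < r := by exact_mod_cast hr
  have hs : 0 ≤ (d : ℝ) + 5 * κ - ρ / r := by
    have h1 : ρ / r ≤ 1 := by
      rw [div_le_one hr0]
      exact hρ1.trans (by exact_mod_cast hr)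
    have h2 : (1 : ℝ) ≤ d := by exact_mod_cast hd
    linarith
  have key : ∀ F : {F : Family d r // F.K.det ≠ 0}, ∃ E : Set (Fin d × Fin m → ℝ),
      dimH E ≤ ENNReal.ofReal (((d : ℝ) - 1) * m + (m + ((d : ℝ) + 5 * κ - ρ / r)) / (1 + τ)) ∧
      ∀ α, α ∉ E → ∀ c : ℝ, ∃ Q : ℝ, ∀ v : Fin d → ℤ, Q ≤ ‖v‖ →
        Near α β v (c * ‖v‖ ^ (-τ)) → v ∉ {v : Fin d → ℤ | ¬ Schneider F.1 (‖v‖ ^ κ) (‖v‖ ^ ρ) v} := fun F =>
    approx_vectors hd _ hs (Pool.Agent.N918.DA.thin_of_shell hs (shell F.1 hr F.2 hκ hρ hρ1)) β hτ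
  choose E hE hE2 using key
  refine ⟨⋃ F, E F, ?_, ?_⟩
  · rw [dimH_iUnion]
    exact iSup_le hE
  · intro α hα F hF c
    have h1 : α ∉ E ⟨F, hF⟩ := fun h => hα (Set.mem_iUnion.2 ⟨_, h⟩)
    obtain ⟨Q, hQ⟩ := hE2 ⟨F, hF⟩ α h1 c
    refine ⟨Q, fun v hv hnear => ?_⟩
    have h2 := hQ v hv hnear
    simpa only [Set.mem_ofPred_eq, not_not] using h2

end Pool.Agent.Results.MP_3550b5_nt.BestApproximations
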