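import Pool.Agent.N832.CFS.Freq
import Pool.Agent.N53.CF.All

/-!
# Schneider's conjecture along the convergents of EVERY continued fraction normal number

A `Family d r` (see `Pool.Agent.Y732.Defs3`) is a Weierstrass equation over `ℤ[t₁, …, t_d]` with `r`
sections, all homogeneous for some weights of the parameters, and `F.K` is the height pairing of the
sections over the function field; it is assumed to be nondegenerate. `F.Marked v`: the member at `v ∈ ℤ^d` is
an elliptic curve and the `r` points are in lowest terms and nonsingular modulo all primes.
`F.NonDeg v p`: the `p`-adic regulator of the `r` points does not vanish, and Schneider's conjecture at `p`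
holds if the rank is `r`; `Large F p T v`: these regulators have norm greater than `1 / T`.

Let `α ∈ (0, 1)` be continued fraction normal (`CFNormal`: irrational, and its orbit under the Gauss map
`x ↦ 1 / x - ⌊1 / x⌋` is distributed according to the Gauss measure `dx / ((1 + x) log 2)`; this is true for
almost all numbers, and explicit examples are known), with the convergents `p_n / q_n = [0; a_1, …, a_n]`,
`cvg (dig α) n = (p_n, q_n)`. The theorem is about the members of ALL families `F` with two parameters at the
parameters `(p_n, q_n)`, for all primes `p ≥ 5`: the `n` at which the member is marked, ordinary at `p` and
violates `NonDeg` have density zero, and those at which it is marked and ordinary at `p` and the regulator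
has norm at most `p ^ (-k)` have upper density at most `2 * (2^2 r |det K| p⁴) / p^(k/r)` (`Rare`). Only
`O(log X)` of the `X ^ 2` parameters of size at most `X` occur in the sequence, and nothing but the
normality of `α` is assumed: one explicit normal number serves for all families and primes.

The proof: the exceptional parameters lie in few residue classes modulo `p ^ k` (`Pool.Agent.N763.SC`,
helper763, on the basis of the starting library), and the convergents of a normal number are distributed in
the residue classes modulo an odd number `q` with upper densities at most twice those of `(ℤ/q)^2`: the
extensions of the Gauss map by finite groups are ergodic, so this is true for almost all numbers, and the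
blocks of partial quotients of a normal number have the frequencies of a typical number
(`Pool.Agent.N53.CF`: helper53, helper614, helper588, helper51, helper951, helper645, helper279).
-/

set_option autoImplicit false

namespace Pool.Agent.Results.MP_3550b5_nt.ConvergentsOfNormalNumbers

open Pool.Agent.Y732 Pool.Agent.R89.SR Pool.Agent.N763.SC Pool.Agent.N53.CF
open Pool.Agent.W811.Stu (dig)

/-- **Theorem.** Let `α` be a continued fraction normal number with the convergents `p_n / q_n`. For all
families with two parameters and `r ≥ 1` sections whose height pairing over the function field is
nondegenerate, and all primes `p ≥ 5`: among the members with the parameters `(p_n, q_n)` which are marked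
and ordinary at `p`, vanishing `p`-adic regulators have density zero, and small `p`-adic regulators are
rare. -/
theorem result (α : ℝ) (hα : CFNormal α) (r : ℕ) (F : Family 2 r) (hr : 0 < r) (hK : F.K.det ≠ 0)
    (p : ℕ) [hp : Fact p.Prime] (hp5 : 5 ≤ p) : Rare (fun n => cvg (dig α) n) F p 2 :=
  rare_of_freq (by norm_num)
    (fun k => Pool.Agent.N832.CFS.conv_freq (t_UPP t_BLK (t_SKW t_EXT)) t_GRP hα (p ^ k)
      (pow_pos hp.out.pos k) ((hp.out.odd_of_ne_two (by omega)).pow)) F hr hK hp5

end Pool.Agent.Results.MP_3550b5_nt.ConvergentsOfNormalNumbers
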