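import Pool.Agent.N763.SC.Seq

/-!
# Schneider's conjecture: ALL marked members in almost all residue classes modulo `p ^ k`, random orbits
and metric sequences

A `Family d r` (see `Pool.Agent.Y732.Defs3`) is a Weierstrass equation over `ℤ[t₁, …, t_d]` with `r`
sections, all homogeneous for some weights of the parameters, and `F.K` is the height pairing of the
sections over the function field; it is assumed to be nondegenerate. `F.Marked v`: the member at `v ∈ ℤ^d` is
an elliptic curve and the `r` points are in lowest terms and nonsingular modulo all primes.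
`F.NonDeg v p`: the `p`-adic regulator of the `r` points does not vanish, and Schneider's conjecture at `p`
holds if the rank is `r`; `Large F p T v`: these regulators have norm greater than `1 / T`.

**Part 1.** For every prime `p ≥ 5` and every `k`: all but the proportion
`2^d r |det K| p⁴ / p^(k/r)` of the residue classes modulo `p ^ k` contain no marked `v`, of whatever size,
ordinary at `p`, with `¬ F.NonDeg v p` or a regulator of norm at most `p ^ (-k)`. So there is an open set
of full Haar measure in `ℤ_p^d` such that the `p`-adic regulator does not vanish at ANY marked ordinary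
member in this set, and the closure of the exceptional set in `ℤ_p^d` has box dimension at most `d - 1/r`.
The starting theorems count the exceptional parameters in boxes, and a set of density zero can be dense in
`ℤ_p^d`.

**Part 2.** Random orbits: let `s_0, …, s_m ∈ SL_d(ℤ)`, `d ≥ 2`, generate `SL_d(ℤ/q)` for all `q` prime to
some `q₀` (`Walk`; by strong approximation all finite sets generating a Zariski dense subgroup, possibly of
infinite index, are allowed), and let `v ∈ ℤ^d`. Almost surely, for ALL families `F` with `d` parameters and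
all primes `p ≥ 5` that divide neither `q₀` nor some coordinate of `v`: the times `n` at which the member at
`c n = s_(w (n-1)) ⋯ s_(w 0) v` is marked, ordinary at `p` and violates `NonDeg` have density zero; those at
which it is marked and ordinary and the regulator has norm at most `p ^ (-k)` have upper density at most
`2 * (2^d r |det K| p⁴) / p^(k/r)` (`Rare c F p 2`).

**Parts 3 and 4.** The same, with `1` instead of `2`, for the integral parts of `f i n (α i)`, the `f i`
satisfying the hypothesis of Koksma's theorem (for instance `f i n x = x ^ n` on `[a, b]`, `a > 1`), for almost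
all `α`, and for the integral parts of `a i n * α i`, where `a i` is ANY sequence of real numbers with
mutual distances at least `δ > 0`, for instance any sequence of different integers, however sparse.

The proof: the starting library shows that the multipliers `μ` of `r + 1` exceptional vectors in one orbit
modulo `p ^ k` cannot be pairwise incongruent modulo a small power of `p`. This depends only on the residue
classes of the vectors modulo `p ^ k`, so the count of the starting library applies to the residue classes.
The engines of random orbits and of metric sequences are by helper24, helper123, helper543, helper195,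
helper286, helper432, helper764, helper199, helper617 and helper344.
-/

set_option autoImplicit false

namespace Pool.Agent.Results.MP_3550b5_nt.ResidueClassesAndOrbits

open Pool.Agent.Y732 Pool.Agent.R89.SR Pool.Agent.N763.SC Pool.Agent.N24.RW Pool.Agent.N24.KM
open MeasureTheory

theorem result :
    (∀ (d r : ℕ) (F : Family d r), 0 < r → F.K.det ≠ 0 → ∀ (p : ℕ) [Fact p.Prime], 5 ≤ p →
      ∀ k : ℕ, ((((fun (v : Fin d → ℤ) (l : Fin d) => ((v l : ℤ) : ZMod (p ^ k))) ''
        {v | F.Marked v ∧ IsOrdinaryW p (F.curve v) ∧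
          (¬ F.NonDeg v p ∨ ¬ Large F p (p ^ k) v)}).ncard : ℕ) : ℝ) ≤
        2 ^ d * r * |(F.K.det : ℝ)| * (p : ℝ) ^ 4 * (((p : ℝ) ^ k) ^ ((1 : ℝ) / r))⁻¹ *
          ((p ^ k : ℕ) : ℝ) ^ d) ∧
    (∀ (d : ℕ), 2 ≤ d → ∀ (W : Walk (Fin d)) (v : Fin d → ℤ), ∀ᵐ w ∂(words W.m),
      ∀ (r : ℕ) (F : Family d r), 0 < r → F.K.det ≠ 0 → ∀ (p : ℕ) [Fact p.Prime], 5 ≤ p →
        ¬ p ∣ W.q₀ → (∃ i, ¬ (p : ℤ) ∣ v i) → Rare (orb W v w) F p 2) ∧
    (∀ (d : ℕ) (a b : Fin d → ℝ) (f : Fin d → ℕ → ℝ → ℝ), (∀ i, a i < b i) →
      (∀ i, Koksma (a i) (b i) (f i)) → ∀ᵐ α : Fin d → ℝ, (∀ i, α i ∈ Set.Icc (a i) (b i)) →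
      ∀ (r : ℕ) (F : Family d r), 0 < r → F.K.det ≠ 0 → ∀ (p : ℕ) [Fact p.Prime], 5 ≤ p →
        Rare (fun n i => ⌊f i n (α i)⌋) F p 1) ∧
    (∀ (d : ℕ) (a : Fin d → ℕ → ℝ) (δ : ℝ), 0 < δ → (∀ i m n, m ≠ n → δ ≤ |a i m - a i n|) →
      ∀ᵐ α : Fin d → ℝ, ∀ (r : ℕ) (F : Family d r), 0 < r → F.K.det ≠ 0 →
        ∀ (p : ℕ) [Fact p.Prime], 5 ≤ p → Rare (fun n i => ⌊a i n * α i⌋) F p 1) := by
  refine ⟨fun d r F hr hK p hp hp5 k => ?_, fun d hd W v => ?_, fun d a b f hab hf => ?_,
    fun d a δ hδ ha => ?_⟩
  · have hpk : NeZero (p ^ k) := ⟨pow_ne_zero k hp.out.ne_zero⟩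
    refine le_trans ?_ (cls_real F hr hK hp5 k)
    have h1 := Set.ncard_le_ncard (s := (fun (v : Fin d → ℤ) (l : Fin d) =>
      ((v l : ℤ) : ZMod (p ^ k))) '' {v | F.Marked v ∧ IsOrdinaryW p (F.curve v) ∧
        (¬ F.NonDeg v p ∨ ¬ Large F p (p ^ k) v)}) (t := SmlCls F p k) (by
      rintro _ ⟨v, ⟨hM, ho, hn | hn⟩, rfl⟩
      · exact ⟨v, sml_of_not_nonDeg hr hM ho hn _, rfl⟩
      · exact ⟨v, sml_of_not hr hM ho hn, rfl⟩) (Set.toFinite _)
    exact_mod_cast h1
  · filter_upwards [orbit_freq hd W v] with w hw r F hr hK p hp hp5 hq ⟨i, hi⟩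
    refine rare_of_freq (by norm_num) (fun k => hw (p ^ k) i (pow_pos hp.out.pos k) ?_) F hr hK hp5
    refine Nat.Coprime.pow_left k ?_
    refine Nat.Coprime.mul_right (Nat.Coprime.mul_right ?_ ?_) ?_
    · rw [Nat.coprime_primes hp.out Nat.prime_two]
      omega
    · exact (Nat.Prime.coprime_iff_not_dvd hp.out).2 hq
    · refine (Nat.Prime.coprime_iff_not_dvd hp.out).2 fun h => hi ?_
      exact Int.natCast_dvd.2 h
  · filter_upwards [metric_freq a b f hab hf] with α hα hbox r F hr hK p hp hp5
    exact rare_of_freq zero_le_one (fun k => hα hbox (p ^ k) (pow_pos hp.out.pos k)) F hr hK hp5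
  · filter_upwards [linear_freq a δ hδ ha] with α hα r F hr hK p hp hp5
    exact rare_of_freq zero_le_one (fun k => hα (p ^ k) (pow_pos hp.out.pos k)) F hr hK hp5

end Pool.Agent.Results.MP_3550b5_nt.ResidueClassesAndOrbits
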