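import Pool.Agent.N193.SR.Core

/-!
# Schneider's conjecture in families along thin sequences, for all small primes simultaneously

A `Family d r` (see `Pool.Agent.Y732.Defs3`) is a Weierstrass equation over `ℤ[t₁, …, t_d]` with `r` sections, all
homogeneous for some weights of the parameters; `F.K` is the height pairing of the sections over the function field.
`F.Marked v`: the member at `v` is an elliptic curve and the `r` points are in lowest terms and nonsingular modulo all
primes. `F.NonDeg v p`: the `p`-adic regulator of the `r` points does not vanish, and Schneider's conjecture at `p` holds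
if the rank is `r`. `Large F p T v`: these regulators have norm greater than `1 / T`.

The parameters are here the integral parts `v n = (⌊P₁(n)⌋, …, ⌊P_d(n)⌋)` of generalised polynomials with different
non-integral leading exponents (for instance `(⌊n ^ √2⌋, ⌊n ^ (5/2) + π n⌋)`), `n` runs through the integers or through
the primes of `(N, 2N]`. The residue classes of the exceptional parameters are counted in `Pool.Agent.N763.SC.Cls`
(on the basis of the starting library), the equidistribution modulo the integers up to a power of `N` is in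
`Pool.Agent.N666.TM.Thin`.
-/

set_option autoImplicit false

namespace Pool.Agent.Results.MP_3550b5_nt.ThinSequences

open Pool.Agent.Y732 Pool.Agent.R89.SR

/-- the generalised polynomial `∑ t ∈ F, a t * x ^ t` has the leading exponent `c`, which is positive and not an integer,
and a positive leading coefficient -/
def Admissible (F : Finset ℝ) (a : ℝ → ℝ) (c : ℝ) : Prop :=
  c ∈ F ∧ (∀ t ∈ F, t ≤ c) ∧ 0 < c ∧ (∀ m : ℕ, c ≠ m) ∧ 0 < a c

/-- the vector of the integral parts of the values at `n` -/
noncomputable def value {d : ℕ} (G : Fin d → Finset ℝ) (a : Fin d → ℝ → ℝ) (n : ℕ) (i : Fin d) : ℤ :=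
  ⌊∑ t ∈ G i, a i t * (n : ℝ) ^ t⌋

/-- The member at `v` is not marked, or for all primes `p` with `5 ≤ p ≤ X` at which it is ordinary: the `p`-adic
regulators of the `r` points and, if the rank is `r`, of the curve do not vanish, and they have norm greater than
`p ^ (-k)` for some `k` with `p ^ k ≤ T`, in particular greater than `1 / T`. -/
def Schneider {d r : ℕ} (F : Family d r) (X T : ℝ) (v : Fin d → ℤ) : Prop :=
  F.Marked v → ∀ (p : ℕ) (_ : Fact p.Prime), 5 ≤ p → (p : ℝ) ≤ X → IsOrdinaryW p (F.curve v) →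
    F.NonDeg v p ∧ ∃ k : ℕ, ((p ^ k : ℕ) : ℝ) ≤ T ∧ Large F p (p ^ k) v

open Classical in
/-- **Theorem.** Let `F` be a family with `d ≥ 1` parameters and `r ≥ 1` sections whose height pairing over the function
field is nondegenerate, `v n` the vector of the integral parts of `d` generalised polynomials with different non-integral
leading exponents, and `ε > 0`. There is `η > 0` such that for all large `N` and all but at most `N ^ (1 - η)` of the
integers `n` in `(N, 2N]`: if the member at `v n` is marked, then for ALL primes `5 ≤ p ≤ N ^ η` at which it is ordinary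
the `p`-adic regulator does not vanish, and its norm is greater than `N ^ (-ε)`. The same holds for all but the
proportion `N ^ (-η)` of the primes `n` in `(N, 2N]`. -/
theorem result {d r : ℕ} (F : Family d r) (hd : 0 < d) (hr : 0 < r) (hK : F.K.det ≠ 0)
    (G : Fin d → Finset ℝ) (a : Fin d → ℝ → ℝ) (c : Fin d → ℝ) (h : ∀ i, Admissible (G i) (a i) (c i))
    (hc : Function.Injective c) (ε : ℝ) (hε : 0 < ε) : ∃ η : ℝ, 0 < η ∧ ∃ N₀ : ℕ, ∀ N : ℕ, N₀ ≤ N →
      (((Finset.Ioc N (2 * N)).filter fun n => ¬ Schneider F ((N : ℝ) ^ η) ((N : ℝ) ^ ε) (value G a n)).card : ℝ) ≤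
        (N : ℝ) ^ (1 - η) ∧
      ((((Finset.Ioc N (2 * N)).filter Nat.Prime).filter fun n =>
        ¬ Schneider F ((N : ℝ) ^ η) ((N : ℝ) ^ ε) (value G a n)).card : ℝ) ≤
        (((Finset.Ioc N (2 * N)).filter Nat.Prime).card : ℝ) * (N : ℝ) ^ (-η) := by
  have : Nonempty (Fin d) := ⟨⟨0, hd⟩⟩
  obtain ⟨⟨κ₁, hκ₁, hw₁⟩, ⟨κ₂, hκ₂, hw₂⟩⟩ := Pool.Agent.N666.TM.fl_well (F := G) (a := a) (c := c) h hc
  obtain ⟨η₁, hη₁, M₁, h₁⟩ := Pool.Agent.N193.SR.thin F hr hK hκ₁ hw₁ ε hε
  obtain ⟨η₂, hη₂, M₂, h₂⟩ := Pool.Agent.N193.SR.thin F hr hK hκ₂ hw₂ ε hε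
  refine ⟨min η₁ η₂, lt_min hη₁ hη₂, M₁ + M₂ + 1, fun N hN => ?_⟩
  have hNr : (1 : ℝ) ≤ N := by exact_mod_cast (by omega : 1 ≤ N)
  have hN0 : (0 : ℝ) < N := by linarith
  have hmono : ∀ (s : Finset ℕ) (η : ℝ), min η₁ η₂ ≤ η →
      (s.filter fun n => ¬ Schneider F ((N : ℝ) ^ min η₁ η₂) ((N : ℝ) ^ ε) (value G a n)).card ≤
      (s.filter fun n => ¬ Pool.Agent.N193.SR.Good F ((N : ℝ) ^ η) ((N : ℝ) ^ ε) (Pool.Agent.N666.TM.fl G a n)).card := by
    intro s η hη
    apply Finset.card_le_card
    intro n hn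
    rw [Finset.mem_filter] at hn ⊢
    refine ⟨hn.1, fun hg => hn.2 ?_⟩
    intro hM p hp hp5 hpX ho
    exact hg hM p hp hp5 (hpX.trans (Real.rpow_le_rpow_of_exponent_le hNr hη)) ho
  constructor
  · have e1 := h₁ N (by omega)
    have e2 : (((Finset.Ioc N (2 * N)).filter fun n =>
        ¬ Schneider F ((N : ℝ) ^ min η₁ η₂) ((N : ℝ) ^ ε) (value G a n)).card : ℝ) ≤ N * (N : ℝ) ^ (-η₁) := by
      refine le_trans (by exact_mod_cast hmono _ _ (min_le_left _ _)) (e1.trans (le_of_eq ?_))
      rw [Nat.card_Ioc, show 2 * N - N = N by omega]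
    refine e2.trans ?_
    have e3 : (N : ℝ) * (N : ℝ) ^ (-η₁) = (N : ℝ) ^ (1 - η₁) := by
      rw [sub_eq_add_neg, Real.rpow_add hN0, Real.rpow_one]
    rw [e3]
    exact Real.rpow_le_rpow_of_exponent_le hNr (by linarith [min_le_left η₁ η₂])
  · have e1 := h₂ N (by omega)
    refine le_trans (by exact_mod_cast hmono _ _ (min_le_right _ _)) (e1.trans ?_)
    apply mul_le_mul_of_nonneg_left _ (Nat.cast_nonneg _)
    exact Real.rpow_le_rpow_of_exponent_le hNr (by linarith [min_le_right η₁ η₂])

end Pool.Agent.Results.MP_3550b5_nt.ThinSequences
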